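import Pool.Agent.H.MP_e563b5_al.Growth

set_option autoImplicit false

open Filter Topology
open Pool.Agent.H.MP_e563b5_al (Wr)

namespace Pool.Agent.Results.MP_e563b5_al.PermutationalWreath

/-- The ball of radius `k` of the group generated by `S`: all products of at most `k` elements of
`S` and inverses of elements of `S`. -/
def ball {G : Type} [Group G] (S : Set G) (k : ℕ) : Set G :=
  {g | ∃ l : List G, l.length ≤ k ∧ (∀ x ∈ l, x ∈ S ∨ x⁻¹ ∈ S) ∧ l.prod = g}

/-- The growth function `β(k) = |B(k)|` of the group generated by `S`. -/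
noncomputable def growth {G : Type} [Group G] (S : Set G) (k : ℕ) : ℕ := (ball S k).ncard

/-- The lamp at `0`, an element of `ℤ ≀ Perm ℕ`. -/
noncomputable def lamp : Wr ℕ := ⟨Finsupp.single 0 1, 1⟩

/-- A permutation of `ℕ` as an element of `ℤ ≀ Perm ℕ`. -/
def perm (p : Equiv.Perm ℕ) : Wr ℕ := ⟨0, p⟩

/-- `a`, `b`, `c`, `d` are the generators of the first Grigorchuk group in its action on the
binary expansions of the natural numbers (least significant digit first), i.e. on the orbit of the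
boundary point fixed by `b`, `c`, `d`. -/
structure IsGrigorchuk (a b c d : Equiv.Perm ℕ) : Prop where
  a_even : ∀ n, a (2 * n) = 2 * n + 1
  a_odd : ∀ n, a (2 * n + 1) = 2 * n
  b_even : ∀ n, b (2 * n) = 2 * c n
  b_odd : ∀ n, b (2 * n + 1) = 2 * a n + 1
  c_even : ∀ n, c (2 * n) = 2 * d n
  c_odd : ∀ n, c (2 * n + 1) = 2 * a n + 1
  d_even : ∀ n, d (2 * n) = 2 * b n
  d_odd : ∀ n, d (2 * n + 1) = 2 * n + 1

open Pool.Agent.H.MP_e563b5_al

theorem isGrigorchuk : IsGrigorchuk A (vperm V.b) (vperm V.c) (vperm V.d) where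
  a_even := A_even
  a_odd := A_odd
  b_even n := by
    have h := vperm_eq V.b
    rw [h, bi_even]
    rfl
  b_odd n := by
    have h := vperm_eq V.b
    rw [h, bi_odd]
    rfl
  c_even n := by
    have h := vperm_eq V.c
    rw [h, bi_even]
    rfl
  c_odd n := by
    have h := vperm_eq V.c
    rw [h, bi_odd]
    rfl
  d_even n := by
    have h := vperm_eq V.d
    rw [h, bi_even]
    rfl
  d_odd n := by
    have h := vperm_eq V.d
    rw [h, bi_odd]
    rfl

theorem drop_one {G : Type} [Group G] (l : List G) :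
    ∃ l' : List G, l'.length ≤ l.length ∧ (∀ x ∈ l', x ∈ l ∧ x ≠ 1) ∧ l'.prod = l.prod := by
  classical
  induction l with
  | nil => exact ⟨[], le_rfl, by simp, rfl⟩
  | cons a l ih =>
    obtain ⟨l', h1, h2, h3⟩ := ih
    by_cases ha : a = 1
    · refine ⟨l', h1.trans (by simp), fun x hx => ⟨List.mem_cons_of_mem _ (h2 x hx).1,
        (h2 x hx).2⟩, ?_⟩
      rw [h3, List.prod_cons, ha, one_mul]
    · refine ⟨a :: l', by simpa using h1, ?_, by rw [List.prod_cons, List.prod_cons, h3]⟩
      intro x hx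
      rcases List.mem_cons.1 hx with rfl | hx
      · exact ⟨List.mem_cons_self, ha⟩
      · exact ⟨List.mem_cons_of_mem _ (h2 x hx).1, (h2 x hx).2⟩

/-- The generating set. -/
noncomputable def gset : Set (Wr ℕ) :=
  {lamp, perm A, perm (vperm V.b), perm (vperm V.c), perm (vperm V.d)}

theorem gset_sub {x : Wr ℕ} (hx : x ∈ gset) : x ∈ Set.range (gen' gact 0) := by
  rcases hx with rfl | rfl | rfl | rfl | rfl
  · exact ⟨none, rfl⟩
  · exact ⟨some none, rfl⟩
  · exact ⟨some (some V.b), rfl⟩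
  · exact ⟨some (some V.c), rfl⟩
  · exact ⟨some (some V.d), rfl⟩

theorem range_sub {x : Wr ℕ} (hx : x ∈ Set.range (gen' gact 0)) : x ∈ gset ∨ x = 1 := by
  obtain ⟨y, rfl⟩ := hx
  rcases y with _ | _ | y
  · exact Or.inl (Or.inl rfl)
  · exact Or.inl (Or.inr (Or.inl rfl))
  · cases y
    · right
      show (⟨0, vperm V.e⟩ : Wr ℕ) = 1
      rw [vperm_e]
      rfl
    · exact Or.inl (Or.inr (Or.inr (Or.inl rfl)))
    · exact Or.inl (Or.inr (Or.inr (Or.inr (Or.inl rfl))))
    · exact Or.inl (Or.inr (Or.inr (Or.inr (Or.inr rfl))))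

theorem ball_eq (k : ℕ) : ball gset k = N gact 0 k := by
  ext γ
  rw [mem_N_iff]
  constructor
  · rintro ⟨l, h1, h2, rfl⟩
    have h3 : ∀ y ∈ l, ∃ z, gen gact 0 z = y := by
      intro y hy
      rw [← gen_eq gact 0 gact_inv]
      rcases h2 y hy with h | h
      · exact Or.inl (gset_sub h)
      · exact Or.inr (gset_sub h)
    obtain ⟨l', hl'⟩ := exists_list_map (gen gact 0) l h3
    refine ⟨l', ?_, ?_⟩
    · have := congrArg List.length hl'
      simp at this
      omega
    · rw [hl']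
  · rintro ⟨l, h1, rfl⟩
    obtain ⟨l', h2, h3, h4⟩ := drop_one (l.map (gen gact 0))
    refine ⟨l', ?_, ?_, h4⟩
    · rw [List.length_map] at h2
      omega
    · intro x hx
      obtain ⟨hx1, hx2⟩ := h3 x hx
      rw [List.mem_map] at hx1
      obtain ⟨y, -, rfl⟩ := hx1
      rcases (gen_eq gact 0 gact_inv (gen gact 0 y)).2 ⟨y, rfl⟩ with h | h
      · rcases range_sub h with h' | h'
        · exact Or.inl h'
        · exact absurd h' hx2
      · rcases range_sub h with h' | h'
        · exact Or.inr h'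
        · exact absurd (inv_eq_one.1 h') hx2

/-- **The permutational wreath product `ℤ ≀_X 𝒢` of the first Grigorchuk group has intermediate
growth with `β(k+1)/β(k) → 1`.** -/
theorem result : ∃ a b c d : Equiv.Perm ℕ, IsGrigorchuk a b c d ∧
    Tendsto (fun k : ℕ => ((growth {lamp, perm a, perm b, perm c, perm d} k : ℕ) : ℝ) ^
      ((1 : ℝ) / (k : ℝ))) atTop (𝓝 1) ∧
    (¬ ∃ (C : ℝ) (m : ℕ), ∀ k : ℕ, 1 ≤ k →
      ((growth {lamp, perm a, perm b, perm c, perm d} k : ℕ) : ℝ) ≤ C * (k : ℝ) ^ m) ∧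
    Tendsto (fun k : ℕ => ((growth {lamp, perm a, perm b, perm c, perm d} (k + 1) : ℕ) : ℝ) /
      ((growth {lamp, perm a, perm b, perm c, perm d} k : ℕ) : ℝ)) atTop (𝓝 1) := by
  have hg : ∀ k, growth {lamp, perm A, perm (vperm V.b), perm (vperm V.c), perm (vperm V.d)} k =
      (N gact 0 k).ncard := by
    intro k
    show (ball gset k).ncard = _
    rw [ball_eq]
  refine ⟨A, vperm V.b, vperm V.c, vperm V.d, isGrigorchuk, ?_, ?_, ?_⟩
  · simp only [hg]
    refine root_tendsto (fun k => (N gact 0 k).ncard) ?_ (ratio_tendsto H1_gact H2_gact)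
    intro k
    rw [ncard_N]
    exact Ng_pos gact 0 k
  · simp only [hg]
    exact not_poly H3_gact
  · simp only [hg]
    exact ratio_tendsto H1_gact H2_gact

end Pool.Agent.Results.MP_e563b5_al.PermutationalWreath
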